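import Pool.Agent.H31.PT.H29.Sep.Rect
import Pool.Agent.H31.PT.M03

/-!
# RSW regime: annuli which are not crossed, one-arm decay
-/

open MeasureTheory ProbabilityTheory unitInterval

namespace Pool.Agent.H29.Sep

open Pool.Agent.H89.Perc Pool.Agent.H61.NC

/-- Closed edges of a finite set. -/
lemma noarm_closed (q : I) (s : Finset Edge) :
    (1 - (q : ℝ)) ^ s.card ≤ Pr q {ω | ∀ e ∈ s, ω e = false} := by
  classical
  induction s using Finset.induction_on with
  | empty => simp [Pr_univ]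
  | insert a s ha ih =>
    have hloc : LocalOn (insert a s) {ω : Config | ∀ e ∈ insert a s, ω e = false} := by
      intro ω ω' h hA e he
      rw [← h e he]
      exact hA e he
    rw [Pr_eq_update hloc a]
    have h1 : {ω : Config | Function.update ω a false ∈
        {ω : Config | ∀ e ∈ insert a s, ω e = false}} = {ω : Config | ∀ e ∈ s, ω e = false} := by
      ext ω
      simp only [Set.mem_ofPred_eq, Finset.mem_insert, forall_eq_or_imp, Function.update_self,
        true_and]
      refine forall₂_congr fun e he => ?_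
      rw [Function.update_of_ne (by rintro rfl; exact ha he)]
    rw [h1, Finset.card_insert_of_notMem ha, pow_succ]
    have h2 : 0 ≤ (q : ℝ) * Pr q {ω : Config | Function.update ω a true ∈
        {ω : Config | ∀ e ∈ insert a s, ω e = false}} := mul_nonneg q.2.1 Pr_nonneg
    have h3 : 0 ≤ 1 - (q : ℝ) := by linarith [q.2.2]
    nlinarith [mul_le_mul_of_nonneg_left ih h3]

lemma noarm_edge (q : I) (e : Edge) : Pr q {ω | ω e = true} = (q : ℝ) := by
  classical
  have hloc : LocalOn {e} {ω : Config | ω e = true} := by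
    intro ω ω' h hA
    have : ω e = ω' e := h e (by simp)
    simp only [Set.mem_ofPred_eq] at hA ⊢
    rw [← this]
    exact hA
  rw [Pr_eq_update hloc e]
  have h1 : {ω : Config | Function.update ω e true ∈ {ω : Config | ω e = true}} = Set.univ := by
    ext ω
    simp
  have h2 : {ω : Config | Function.update ω e false ∈ {ω : Config | ω e = true}} = ∅ := by
    ext ω
    simp
  rw [h1, h2, Pr_univ]
  have h3 : Pr q (∅ : Set Config) = 0 := by simp [Pr]
  rw [h3]
  ring

/-- In the regime closed edges have probability bounded below. -/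
lemma noarm_param {c : ℝ} {n : ℕ} {q : I} (hn : 1 ≤ n) (h : RSWreg c n q) :
    c / 2 ≤ 1 - (q : ℝ) := by
  have h1 := (h 1 le_rfl hn).2
  have h2 : Pr (σ q) {ω | HCross ω 0 (4 * (1 : ℕ)) 0 (1 : ℕ)} ≤
      Pr (σ q) ({ω | ω ((0 : ℤ), (0 : ℤ), false) = true} ∪
        {ω | ω ((0 : ℤ), (1 : ℤ), false) = true}) := by
    refine Pr_mono ?_
    rintro ω ⟨u, v, hu, hv, huv⟩
    obtain ⟨w, w', hw, -, hst, hl⟩ := huv.exists_last (T := {z : Vert | z.1 ≤ 0})
      (by simp only [Set.mem_ofPred_eq]; omega)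
      (by simp only [Set.mem_ofPred_eq]; omega)
    have hw' := hl.mem_left.2
    simp only [Set.mem_ofPred_eq] at hw hw'
    obtain ⟨h1, h2, e, he, heo⟩ := hst
    simp only [rect, Set.mem_ofPred_eq] at h1 h2
    obtain ⟨x, y, b⟩ := e
    cases b
    · rcases he with ⟨ha, hb⟩ | ⟨ha, hb⟩
      · simp only [src, tgt, Bool.false_eq_true, if_false] at ha hb
        subst ha hb
        simp only at h1 h2 hw hw'
        have hx : x = 0 := by omega
        have hy : y = 0 ∨ y = 1 := by omega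
        subst hx
        rcases hy with rfl | rfl
        · exact Or.inl heo
        · exact Or.inr heo
      · simp only [src, tgt, Bool.false_eq_true, if_false] at ha hb
        subst ha hb
        simp only at h1 h2 hw hw'
        omega
    · rcases he with ⟨ha, hb⟩ | ⟨ha, hb⟩
      · simp only [src, tgt, if_true] at ha hb
        subst ha hb
        exact absurd hw hw'
      · simp only [src, tgt, if_true] at ha hb
        subst ha hb
        exact absurd hw hw'
  have h3 := Pr_union_le (p := σ q) (A := {ω : Config | ω ((0 : ℤ), (0 : ℤ), false) = true})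
    (B := {ω : Config | ω ((0 : ℤ), (1 : ℤ), false) = true})
  rw [noarm_edge, noarm_edge] at h3
  have h4 : ((σ q : I) : ℝ) = 1 - (q : ℝ) := rfl
  rw [h4] at h3
  linarith [h1.trans h2]

/-- The annulus `ball v (3 s)` minus `ball v s` is not crossed with positive probability. -/
theorem noarm_lower (c : ℝ) (hc : 0 < c) (K : ℕ) : ∃ c' : ℝ, 0 < c' ∧ ∀ (n : ℕ) (q : I), 1 ≤ n →
    RSWreg c n q → ∀ (v : Vert) (s : ℕ), 1 ≤ s → s ≤ K * n →
      c' ≤ Pr q {ω | ¬ ∃ u ∈ ball v s, ∃ u' ∈ sphere v (3 * s), Conn ω (ball v (3 * s)) u u'} := by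
  classical
  obtain ⟨c1, hc1, H⟩ := rect_lower c hc (6 + 2 * K)
  refine ⟨min (c1 ^ 4) ((c / 2) ^ (eBall 3).card), lt_min (by positivity) (by positivity), ?_⟩
  intro n q hn hreg v s hs hsK
  -- translate to the origin
  have hcompl : {ω : Config | ¬ ∃ u ∈ ball v s, ∃ u' ∈ sphere v (3 * s),
      Conn ω (ball v (3 * s)) u u'} = (ArmBox v s (3 * s))ᶜ := rfl
  rw [hcompl, Pr_compl (localOn_armBox v s (3 * s)), Pr_armBox]
  rcases Nat.lt_or_ge 1 s with h2 | h1
  · -- large annuli
    refine (min_le_left _ _).trans ?_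
    have hregs := rswreg_symm hreg
    have b1 : (-(3 * s : ℕ) : ℤ) ≤ (3 * s : ℕ) := by push_cast; omega
    have key : ∀ y z : ℤ, z - y = 2 * (s : ℤ) - 2 →
        c1 ≤ Pr (σ q) {ω | HCross ω (-(3 * s : ℕ)) (3 * s : ℕ) y z} ∧
          c1 ≤ Pr (σ q) {ω | VCross ω y z (-(3 * s : ℕ)) (3 * s : ℕ)} := by
      intro y z hyz
      refine H n (σ q) hn hregs _ _ y z b1 (by omega) ?_ ?_
      · rw [hyz]
        push_cast
        have : (0 : ℤ) ≤ (K : ℤ) * (2 * (s : ℤ) - 2) :=
          mul_nonneg (Int.natCast_nonneg K) (by omega)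
        nlinarith
      · rw [hyz]
        have : (s : ℤ) ≤ (K : ℤ) * n := by exact_mod_cast hsK
        push_cast
        nlinarith [Int.natCast_nonneg n]
    have k1 := (key (s + 1) ((3 * s : ℕ) - 1) (by push_cast; ring)).2
    have k2 := (key (-(3 * s : ℕ) + 1) (-s - 1) (by push_cast; ring)).2
    have k3 := (key (s + 1) ((3 * s : ℕ) - 1) (by push_cast; ring)).1
    have k4 := (key (-(3 * s : ℕ) + 1) (-s - 1) (by push_cast; ring)).1
    have h12 := fkg (p := σ q) (localOn_vcross ((s : ℤ) + 1) ((3 * s : ℕ) - 1) (-(3 * s : ℕ)) (3 * s : ℕ))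
      (localOn_vcross (-((3 * s : ℕ) : ℤ) + 1) (-s - 1) (-(3 * s : ℕ)) (3 * s : ℕ))
      (incr_vcross _ _ _ _) (incr_vcross _ _ _ _)
    have h34 := fkg (p := σ q) (localOn_hcross (-((3 * s : ℕ) : ℤ)) (3 * s : ℕ) (s + 1) ((3 * s : ℕ) - 1))
      (localOn_hcross (-((3 * s : ℕ) : ℤ)) (3 * s : ℕ) (-(3 * s : ℕ) + 1) (-s - 1))
      (incr_hcross _ _ _ _) (incr_hcross _ _ _ _)
    have h1234 := fkg (p := σ q)
      ((localOn_vcross ((s : ℤ) + 1) ((3 * s : ℕ) - 1) (-(3 * s : ℕ)) (3 * s : ℕ)).inter'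
        (localOn_vcross (-((3 * s : ℕ) : ℤ) + 1) (-s - 1) (-(3 * s : ℕ)) (3 * s : ℕ)))
      ((localOn_hcross (-((3 * s : ℕ) : ℤ)) (3 * s : ℕ) (s + 1) ((3 * s : ℕ) - 1)).inter'
        (localOn_hcross (-((3 * s : ℕ) : ℤ)) (3 * s : ℕ) (-(3 * s : ℕ) + 1) (-s - 1)))
      ((incr_vcross _ _ _ _).inter (incr_vcross _ _ _ _))
      ((incr_hcross _ _ _ _).inter (incr_hcross _ _ _ _))
    have h12' := (mul_le_mul k1 k2 hc1.le Pr_nonneg).trans h12
    have h34' := (mul_le_mul k3 k4 hc1.le Pr_nonneg).trans h34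
    have h' := (mul_le_mul h12' h34' (by positivity) Pr_nonneg).trans h1234
    have e : c1 ^ 4 = c1 * c1 * (c1 * c1) := by ring
    have h5 : c1 ^ 4 ≤ Pr (σ q) {ω | dual ω ∉ DArm s (3 * s)} := by
      rw [e]
      refine h'.trans (Pr_mono ?_)
      rintro ω ⟨⟨w1, w2⟩, ⟨w3, w4⟩⟩
      exact block (by omega) w1 w2 w3 w4
    have h6 := Pr_compl (p := σ q) (localOn_dual_DArm s (3 * s))
    have h7 : {ω : Config | dual ω ∉ DArm s (3 * s)}ᶜ = {ω | dual ω ∈ DArm s (3 * s)} := by
      ext ω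
      simp only [Set.mem_compl_iff, Set.mem_ofPred_eq, not_not]
    rw [h7, Pr_dual (decay_localOn_DArm s (3 * s)), unitInterval.symm_symm] at h6
    have h8 : Pr q (ArmBox 0 s (3 * s)) ≤ Pr q (DArm s (3 * s)) :=
      Pr_mono (armBox_subset_DArm (by omega))
    linarith
  · -- the smallest annulus
    refine (min_le_right _ _).trans ?_
    have hs1 : s = 1 := by omega
    subst hs1
    have hq := noarm_param hn hreg
    have h3 := noarm_closed q (eBall 3)
    have h4 : (c / 2) ^ (eBall 3).card ≤ (1 - (q : ℝ)) ^ (eBall 3).card :=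
      pow_le_pow_left₀ (by positivity) hq _
    have h5 : Pr q {ω | ∀ e ∈ eBall 3, ω e = false} ≤ Pr q (ArmBox 0 1 (3 * 1))ᶜ := by
      refine Pr_mono ?_
      rintro ω hω ⟨w, hw, u, hu, hc⟩
      have hwu : w ≠ u := by
        rintro rfl
        obtain ⟨_, h⟩ := hu
        simp only [mem_ball, Prod.fst_zero, Prod.snd_zero] at hw h
        omega
      obtain ⟨a, b, ha, hb, hst, -⟩ := hc.exists_last (T := {w}) rfl (fun h => hwu h.symm)
      obtain ⟨ga, gb, e, he, heo⟩ := hst
      have hsrc : src e ∈ ball 0 3 := by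
        rcases he with ⟨h1, h2⟩ | ⟨h1, h2⟩
        · rw [← h1]; exact ga
        · rw [← h2]; exact gb
      have := hω e (mem_eBall.2 hsrc)
      rw [this] at heo
      exact absurd heo (by simp)
    rw [Pr_compl (localOn_armBox 0 1 (3 * 1))] at h5
    linarith

end Pool.Agent.H29.Sep
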