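import Pool.Agent.H31.PT.H85.Strict.Corr
import Pool.Agent.H31.PT.M04

/-!
# RSW regime: crossings of all rectangles of bounded aspect ratio
-/

open MeasureTheory ProbabilityTheory unitInterval

namespace Pool.Agent.H29.Sep

open Pool.Agent.H89.Perc Pool.Agent.H61.NC Pool.Agent.H85.Strict

theorem rswreg_symm {c : ℝ} {n : ℕ} {q : I} (h : RSWreg c n q) : RSWreg c n (σ q) := by
  intro m h1 h2
  obtain ⟨h3, h4⟩ := h m h1 h2
  rw [unitInterval.symm_symm]
  exact ⟨h4, h3⟩

/-- Crossings of all rectangles of aspect ratio at most `K` and height at most `K n`. -/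
theorem rect_lower (c : ℝ) (hc : 0 < c) (K : ℕ) : ∃ c' : ℝ, 0 < c' ∧ ∀ (n : ℕ) (q : I), 1 ≤ n →
    RSWreg c n q → ∀ a b y z : ℤ, a ≤ b → y < z → b - a ≤ K * (z - y) → z - y ≤ K * n →
      c' ≤ Pr q {ω | HCross ω a b y z} ∧ c' ≤ Pr q {ω | VCross ω y z a b} := by
  refine ⟨c ^ (2 * (K * K) + 1), pow_pos hc _, ?_⟩
  intro n q hn hreg a b y z hab hyz h1 h2
  have key : c ^ (2 * (K * K) + 1) ≤ Pr q {ω | HCross ω a b y z} := by
    obtain ⟨h, hh⟩ : ∃ h : ℕ, (h : ℤ) = z - y := ⟨(z - y).toNat, Int.toNat_of_nonneg (by omega)⟩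
    have hh1 : 1 ≤ h := by omega
    have hK : h ≤ K * n := by
      have : (h : ℤ) ≤ ((K * n : ℕ) : ℤ) := by push_cast; rw [hh]; exact h2
      exact_mod_cast this
    have hK1 : 1 ≤ K := by
      rcases Nat.eq_zero_or_pos K with h0 | h0
      · rw [h0, zero_mul] at hK
        omega
      · exact h0
    set m : ℕ := min h n with hm
    have hm1 : 1 ≤ m := le_min hh1 hn
    have hmh : m ≤ h := min_le_left _ _
    have hmn : m ≤ n := min_le_right _ _
    have hhm : h ≤ K * m := by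
      rcases min_choice h n with h3 | h3
      · rw [hm, h3]; exact Nat.le_mul_of_pos_left _ hK1
      · rw [hm, h3]; exact hK
    have hlen : b - a ≤ ((4 + 3 * (K * K) : ℕ) : ℤ) * m := by
      have e1 : b - a ≤ K * (h : ℤ) := by rw [hh]; exact h1
      have e2 : (h : ℤ) ≤ K * (m : ℤ) := by exact_mod_cast hhm
      have e3 : (K : ℤ) * h ≤ K * (K * m) := mul_le_mul_of_nonneg_left e2 (by positivity)
      have e4 : (0 : ℤ) ≤ (K : ℤ) * K * m := by positivity
      have e5 : (0 : ℤ) ≤ (m : ℤ) := by positivity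
      push_cast
      nlinarith
    have hl := long_rsw (q := q) (n := m) hc.le (hreg m hm1 hmn).1 (K * K)
    have ht := Pr_hcross_translate (p := q) (a := 0) (b := (4 + 3 * ((K * K : ℕ) : ℤ)) * m) (c := 0)
      (d := (m : ℤ)) a y
    have e0 : (0 : ℤ) + a = a := zero_add a
    have e0' : (0 : ℤ) + y = y := zero_add y
    rw [e0, e0'] at ht
    refine hl.trans ?_
    rw [← ht]
    refine Pr_mono fun ω hω => ?_
    have hlen' : b ≤ (4 + 3 * ((K * K : ℕ) : ℤ)) * m + a := by
      push_cast at hlen ⊢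
      linarith
    have hz : (m : ℤ) + y ≤ z := by
      have : (m : ℤ) ≤ h := by exact_mod_cast hmh
      linarith
    exact HCross.mono hω le_rfl hab hlen' le_rfl hz
  refine ⟨key, ?_⟩
  rw [Pr_vcross_eq_hcross]
  exact key

end Pool.Agent.H29.Sep
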